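import Pool.Agent.H70.IX.PUA

/-!
# Finite extensions of the field of Laurent series
-/

set_option autoImplicit false

open Finset Polynomial Pool.Agent.H15.IX

namespace Pool.Agent.H70.IX

universe u

variable {k L : Type u} [Field k] [Field L] [Algebra (LaurentSeries k) L]

/-- an integral primitive element -/
theorem exists_gen [CharZero k] [FiniteDimensional (LaurentSeries k) L] :
    ∃ (θ : L) (Q : Polynomial (PowerSeries k)), Q.Monic ∧
      Q.map (algebraMap (PowerSeries k) (LaurentSeries k)) = minpoly (LaurentSeries k) θ ∧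
      IntermediateField.adjoin (LaurentSeries k) {θ} = ⊤ := by
  have : CharZero (LaurentSeries k) :=
    charZero_of_injective_algebraMap (algebraMap k (LaurentSeries k)).injective
  obtain ⟨α, hα⟩ := Field.exists_primitive_element (LaurentSeries k) L
  let _ : Algebra (PowerSeries k) L :=
    ((algebraMap (LaurentSeries k) L).comp (algebraMap (PowerSeries k) (LaurentSeries k))).toAlgebra
  have : IsScalarTower (PowerSeries k) (LaurentSeries k) L :=
    IsScalarTower.of_algebraMap_eq fun _ => rfl
  have halg : IsAlgebraic (PowerSeries k) α := by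
    have h1 : Algebra.IsAlgebraic (PowerSeries k) L :=
      (IsFractionRing.comap_isAlgebraic_iff (A := PowerSeries k) (K := LaurentSeries k)
        (C := L)).2 inferInstance
    exact h1.isAlgebraic α
  obtain ⟨y, hy, hint⟩ := halg.exists_integral_multiple
  refine ⟨y • α, minpoly (PowerSeries k) (y • α), minpoly.monic hint, ?_, ?_⟩
  · exact (minpoly.isIntegrallyClosed_eq_field_fractions' (LaurentSeries k) hint).symm
  · rw [eq_top_iff, ← hα, IntermediateField.adjoin_simple_le_iff]
    have h1 : α = algebraMap (LaurentSeries k) L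
        (algebraMap (PowerSeries k) (LaurentSeries k) y)⁻¹ * (y • α) := by
      rw [Algebra.smul_def, IsScalarTower.algebraMap_apply (PowerSeries k) (LaurentSeries k) L,
        ← mul_assoc, ← map_mul, inv_mul_cancel₀, map_one, one_mul]
      intro h0
      exact hy ((IsFractionRing.injective (PowerSeries k) (LaurentSeries k)) (by
        rw [h0, map_zero]))
    have h2 := (IntermediateField.adjoin (LaurentSeries k) {y • α}).mul_mem
      ((IntermediateField.adjoin (LaurentSeries k) {y • α}).algebraMap_mem
        (algebraMap (PowerSeries k) (LaurentSeries k) y)⁻¹)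
      (IntermediateField.mem_adjoin_simple_self (LaurentSeries k) (y • α))
    rw [← h1] at h2
    exact h2

/-- the evaluation at a generator is surjective -/
theorem aeval_surj [FiniteDimensional (LaurentSeries k) L] {θ : L}
    (h : IntermediateField.adjoin (LaurentSeries k) {θ} = ⊤) (y : L) :
    ∃ P : Polynomial (LaurentSeries k), aeval θ P = y := by
  have h1 : y ∈ (IntermediateField.adjoin (LaurentSeries k) {θ}).toSubalgebra := by
    rw [h]
    trivial
  rw [IntermediateField.adjoin_simple_toSubalgebra_of_isAlgebraic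
    (Algebra.IsAlgebraic.isAlgebraic θ), Algebra.adjoin_singleton_eq_range_aeval] at h1
  exact h1

/-- the embedding into the field of Laurent series in `t ^ (1 / M)` -/
theorem exists_phi (hNPU : T_NPU.{u}) [IsAlgClosed k] [CharZero k]
    [FiniteDimensional (LaurentSeries k) L] :
    ∃ (M : ℕ) (hM : 0 < M) (φ : L →+* LaurentSeries k) (θ : L),
      (∀ a, φ (algebraMap (LaurentSeries k) L a) = sbs M hM a) ∧
      IntermediateField.adjoin (LaurentSeries k) {θ} = ⊤ := by
  obtain ⟨θ, Q, hQm, hQ, hθ⟩ := exists_gen (k := k) (L := L)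
  obtain ⟨M, f, x, hM, hX, hC, -, hprod⟩ := hNPU k Q hQm
  have hint : IsIntegral (LaurentSeries k) θ := Algebra.IsIntegral.isIntegral θ
  have hdeg : 0 < Q.natDegree := by
    have h1 := minpoly.natDegree_pos hint
    rw [← hQ, hQm.natDegree_map] at h1
    exact h1
  set x0 : LaurentSeries k := (x ⟨0, hdeg⟩ : LaurentSeries k) with hx0
  have hroot : eval₂ (sbs M hM) x0 (minpoly (LaurentSeries k) θ) = 0 := by
    rw [← hQ, eval₂_map]
    have h1 : (sbs M hM).comp (algebraMap (PowerSeries k) (LaurentSeries k)) =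
        (HahnSeries.ofPowerSeries ℤ k).comp f := by
      ext1 a
      exact (coe_eq_sbs M hM f hX hC a).symm
    rw [h1, ← eval₂_map, hprod, hx0, eval₂_hom, eval_prod]
    have h2 : ∏ j : Fin Q.natDegree, eval (x ⟨0, hdeg⟩) (X - C (x j)) = 0 :=
      Finset.prod_eq_zero (Finset.mem_univ (⟨0, hdeg⟩ : Fin Q.natDegree)) (by simp)
    rw [h2, map_zero]
  have hsurj : Function.Surjective (aeval θ : Polynomial (LaurentSeries k) →ₐ[LaurentSeries k] L) :=
    aeval_surj hθ
  let φ : L →+* LaurentSeries k :=
    ((aeval θ : Polynomial (LaurentSeries k) →ₐ[LaurentSeries k] L) :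
      Polynomial (LaurentSeries k) →+* L).liftOfSurjective hsurj
      ⟨eval₂RingHom (sbs M hM) x0, by
        intro P hP
        rw [RingHom.mem_ker] at hP ⊢
        obtain ⟨R, rfl⟩ := minpoly.dvd (LaurentSeries k) θ hP
        rw [coe_eval₂RingHom, eval₂_mul, hroot, zero_mul]⟩
  have hφ : ∀ P : Polynomial (LaurentSeries k), φ (aeval θ P) = eval₂ (sbs M hM) x0 P := by
    intro P
    exact RingHom.liftOfRightInverse_comp_apply _ _ _ _ P
  refine ⟨M, hM, φ, θ, ?_, hθ⟩
  intro a
  have h1 := hφ (C a)
  rw [aeval_C, eval₂_C] at h1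
  exact h1

theorem prt_comb (m : ℕ) (hm : 0 < m) (c : ℕ → LaurentSeries k) (i : ℕ) (hi : i < m) :
    prt m hm i (∑ l ∈ range m, HahnSeries.single (1 : ℤ) (1 : k) ^ l * sbs m hm (c l)) = c i := by
  ext j
  have hi0 : (0 : ℤ) ≤ i := Int.natCast_nonneg i
  have hi' : (i : ℤ) < m := by exact_mod_cast hi
  have h1 : ((m : ℤ) * j + i) % m = i := by
    rw [Int.add_comm, Int.add_mul_emod_self_left]
    exact Int.emod_eq_of_lt hi0 hi'
  have h2 : ((m : ℤ) * j + i) / m = j := by
    rw [Int.add_comm, Int.add_mul_ediv_left _ _ (by linarith), Int.ediv_eq_zero_of_lt hi0 hi',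
      zero_add]
  rw [prt_coeff, coeff_comb, h1, h2, Int.toNat_natCast]

theorem prt_add (m : ℕ) (hm : 0 < m) (i : ℤ) (x y : LaurentSeries k) :
    prt m hm i (x + y) = prt m hm i x + prt m hm i y := by
  ext j
  rw [prt_coeff, HahnSeries.coeff_add, HahnSeries.coeff_add, prt_coeff, prt_coeff]

theorem prt_smul (m : ℕ) (hm : 0 < m) (i : ℕ) (hi : i < m) (a x : LaurentSeries k) :
    prt m hm i (sbs m hm a * x) = a * prt m hm i x := by
  conv_lhs => rw [decomp m hm x]
  have h1 : sbs m hm a * ∑ l ∈ range m, HahnSeries.single (1 : ℤ) (1 : k) ^ l *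
      sbs m hm (prt m hm l x) = ∑ l ∈ range m, HahnSeries.single (1 : ℤ) (1 : k) ^ l *
        sbs m hm (a * prt m hm l x) := by
    rw [Finset.mul_sum]
    apply Finset.sum_congr rfl
    intro l _
    rw [map_mul]
    ring
  rw [h1, prt_comb m hm (fun l => a * prt m hm l x) i hi]

theorem coe_prt (m : ℕ) (hm : 0 < m) (i : ℕ) (hi : i < m) (b : PowerSeries k) :
    ((PowerSeries.mk fun j => PowerSeries.coeff (m * j + i) b : PowerSeries k) :
      LaurentSeries k) = prt m hm i (b : LaurentSeries k) := by
  ext n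
  rw [prt_coeff]
  rcases lt_or_ge n 0 with hn | hn
  · rw [coe_neg_coeff _ n hn, coe_neg_coeff]
    have h1 : (1 : ℤ) ≤ m := by exact_mod_cast hm
    have h2 : (i : ℤ) < m := by exact_mod_cast hi
    nlinarith
  · obtain ⟨j, rfl⟩ := Int.eq_ofNat_of_zero_le hn
    have h1 : (m : ℤ) * (j : ℤ) + i = ((m * j + i : ℕ) : ℤ) := by push_cast; ring
    rw [h1, LaurentSeries.coeff_coe_powerSeries, LaurentSeries.coeff_coe_powerSeries,
      PowerSeries.coeff_mk]

/-- an injective homomorphism which is `sbs m` on the base field is surjective -/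
theorem surj_of_finrank [FiniteDimensional (LaurentSeries k) L] (m : ℕ) (hm : 0 < m)
    (hfin : Module.finrank (LaurentSeries k) L = m) (ψ : L →+* LaurentSeries k)
    (hψ : ∀ a, ψ (algebraMap (LaurentSeries k) L a) = sbs m hm a) : Function.Surjective ψ := by
  let τ : L →ₗ[LaurentSeries k] (Fin m → LaurentSeries k) :=
    { toFun := fun y i => prt m hm ((i : ℕ) : ℤ) (ψ y)
      map_add' := fun x y => by
        funext i
        rw [Pi.add_apply, map_add, prt_add]
      map_smul' := fun a y => by
        funext i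
        rw [Pi.smul_apply, smul_eq_mul, Algebra.smul_def, map_mul, hψ, prt_smul m hm i i.2,
          RingHom.id_apply] }
  have hinj : Function.Injective τ := by
    rw [← LinearMap.ker_eq_bot, LinearMap.ker_eq_bot']
    intro y hy
    have h1 : ψ y = 0 := by
      rw [decomp m hm (ψ y)]
      apply Finset.sum_eq_zero
      intro i hi
      have h2 : prt m hm (i : ℤ) (ψ y) = 0 := congrFun hy ⟨i, Finset.mem_range.1 hi⟩
      rw [h2, map_zero, mul_zero]
    exact (map_eq_zero ψ).1 h1
  have hsurj : Function.Surjective τ :=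
    (LinearMap.injective_iff_surjective_of_finrank_eq_finrank (by
      rw [hfin, Module.finrank_fin_fun])).1 hinj
  intro x
  obtain ⟨y, hy⟩ := hsurj fun i => prt m hm ((i : ℕ) : ℤ) x
  refine ⟨y, ?_⟩
  rw [decomp m hm (ψ y), decomp m hm x]
  apply Finset.sum_congr rfl
  intro i hi
  have h2 : prt m hm (i : ℤ) (ψ y) = prt m hm (i : ℤ) x :=
    congrFun hy ⟨i, Finset.mem_range.1 hi⟩
  rw [h2]

/-- the image of the embedding -/
theorem exists_psi [IsAlgClosed k] [CharZero k] [FiniteDimensional (LaurentSeries k) L]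
    (M : ℕ) (hM : 0 < M) (φ : L →+* LaurentSeries k) (θ : L)
    (hφ : ∀ a, φ (algebraMap (LaurentSeries k) L a) = sbs M hM a)
    (hθ : IntermediateField.adjoin (LaurentSeries k) {θ} = ⊤) :
    ∃ (hm : 0 < Module.finrank (LaurentSeries k) L) (ψ : L →+* LaurentSeries k),
      ∀ a, ψ (algebraMap (LaurentSeries k) L a) =
        sbs (Module.finrank (LaurentSeries k) L) hm a := by
  classical
  set m := Module.finrank (LaurentSeries k) L with hmdef
  have hdeg : (minpoly (LaurentSeries k) θ).natDegree = m := by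
    have : CharZero (LaurentSeries k) :=
      charZero_of_injective_algebraMap (algebraMap k (LaurentSeries k)).injective
    exact (Field.primitive_element_iff_minpoly_natDegree_eq (LaurentSeries k) θ).1 hθ
  have hint : IsIntegral (LaurentSeries k) θ := Algebra.IsIntegral.isIntegral θ
  -- the root of unity
  obtain ⟨ζ, hζ⟩ : ∃ ζ : kˣ, orderOf ζ = M := by
    have : NeZero (M : k) := ⟨by exact_mod_cast hM.ne'⟩
    have : NeZero M := ⟨hM.ne'⟩
    obtain ⟨z, hz⟩ := HasEnoughRootsOfUnity.exists_primitiveRoot k M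
    have hu : IsUnit z := hz.isUnit hM.ne'
    refine ⟨hu.unit, ?_⟩
    rw [← orderOf_units, IsUnit.unit_spec]
    exact hz.eq_orderOf.symm
  have hζM : ζ ^ M = 1 := by
    rw [← hζ]
    exact pow_orderOf_eq_one ζ
  set x0 := φ θ with hx0
  have hev : ∀ P : Polynomial (LaurentSeries k), φ (aeval θ P) = eval₂ (sbs M hM) x0 P := by
    intro P
    rw [aeval_def, hom_eval₂]
    congr 1
    ext1 a
    exact hφ a
  have htw : ∀ (j : ℕ) (y : LaurentSeries k) (P : Polynomial (LaurentSeries k)),
      tw (ζ ^ j) (eval₂ (sbs M hM) y P) = eval₂ (sbs M hM) (tw (ζ ^ j) y) P := by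
    intro j y P
    rw [hom_eval₂]
    congr 1
    ext1 a
    refine tw_sbs (ζ ^ j) M hM ?_ a
    rw [← pow_mul, mul_comm, pow_mul, hζM, one_pow]
  set f : LaurentSeries k → LaurentSeries k := ⇑(tw ζ : LaurentSeries k →+* LaurentSeries k)
    with hf
  have hper : Function.IsPeriodicPt f M x0 := by
    change f^[M] x0 = x0
    rw [hf, tw_iter, hζM]
    ext n
    rw [tw_coeff, one_zpow, Units.val_one, one_mul]
  set r := Function.minimalPeriod f x0 with hr
  have hrpos : 0 < r := hper.minimalPeriod_pos hM
  have hrM : r ∣ M := hper.minimalPeriod_dvd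
  have hroot0 : eval₂ (sbs M hM) x0 (minpoly (LaurentSeries k) θ) = 0 := by
    rw [← hev, minpoly.aeval, map_zero]
  -- at most `m` conjugates
  have hrm : r ≤ m := by
    have h1 : ((range r).image fun i => f^[i] x0).card = r := by
      rw [Finset.card_image_of_injOn, Finset.card_range]
      intro i hi j hj hij
      exact Function.iterate_injOn_Iio_minimalPeriod (by simpa using hi) (by simpa using hj) hij
    have h2 : ((range r).image fun i => f^[i] x0).val ⊆
        ((minpoly (LaurentSeries k) θ).map (sbs M hM)).roots := by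
      intro y hy
      rw [Finset.mem_val, Finset.mem_image] at hy
      obtain ⟨i, -, rfl⟩ := hy
      rw [mem_roots ((minpoly.monic hint).map _).ne_zero, IsRoot.def, eval_map, hf, tw_iter,
        ← htw, hroot0, map_zero]
    have h3 := card_le_degree_of_subset_roots h2
    rw [h1, (minpoly.monic hint).natDegree_map, hdeg] at h3
    exact h3
  -- at least `m` conjugates
  have hmr : m ≤ r := by
    set R : Polynomial (LaurentSeries k) := ∏ i ∈ range r, (X - C (f^[i] x0)) with hRd
    have hRm : R.Monic := monic_prod_of_monic _ _ fun i _ => monic_X_sub_C _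
    have hRdeg : R.natDegree = r := by
      rw [hRd, natDegree_prod_of_monic _ _ fun i _ => monic_X_sub_C _]
      simp
    have hRf : R.map (tw ζ) = R := by
      have h1 : R.map (tw ζ) = ∏ i ∈ range r, (X - C (f^[i + 1] x0)) := by
        rw [hRd, Polynomial.map_prod]
        apply Finset.prod_congr rfl
        intro i _
        rw [Polynomial.map_sub, map_X, map_C, Function.iterate_succ_apply']
      have h2 := Finset.prod_range_succ (fun i => X - C (f^[i] x0)) r
      have h3 := Finset.prod_range_succ' (fun i => X - C (f^[i] x0)) r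
      have h4 : f^[r] x0 = x0 := Function.iterate_minimalPeriod
      rw [h3, h4, Function.iterate_zero_apply, ← h1, ← hRd] at h2
      exact mul_right_cancel₀ (X_sub_C_ne_zero x0) h2
    have hlift : R ∈ lifts (sbs M hM : LaurentSeries k →+* LaurentSeries k) := by
      rw [lifts_iff_coeff_lifts]
      intro n
      have h1 := congrArg (fun p => coeff p n) hRf
      simp only [coeff_map] at h1
      exact mem_range_of_fix ζ M hM hζ _ h1
    obtain ⟨R0, hR0, hR0d, hR0m⟩ := lifts_and_natDegree_eq_and_monic hlift hRm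
    have hz : aeval θ R0 = 0 := by
      apply φ.injective
      rw [map_zero, hev, ← eval_map, hR0, hRd, eval_prod]
      apply Finset.prod_eq_zero (Finset.mem_range.2 hrpos)
      rw [Function.iterate_zero_apply, eval_sub, eval_X, eval_C, sub_self]
    have h5 := natDegree_le_natDegree (minpoly.min (LaurentSeries k) θ hR0m hz)
    rw [hdeg, hR0d, hRdeg] at h5
    exact h5
  have hrm' : r = m := le_antisymm hrm hmr
  have hm : 0 < m := hrm' ▸ hrpos
  refine ⟨hm, ?_⟩
  obtain ⟨d, hd⟩ := hrM
  rw [hrm'] at hd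
  have hdpos : 0 < d := by
    rcases Nat.eq_zero_or_pos d with h | h
    · rw [h, mul_zero] at hd
      omega
    · exact h
  have hord : orderOf (ζ ^ m) = d := by
    rw [orderOf_pow_of_dvd hm.ne' (by rw [hζ]; exact ⟨d, hd⟩), hζ, hd]
    exact Nat.mul_div_cancel_left d hm
  have hfix : ∀ y : L, ∃ z, sbs d hdpos z = φ y := by
    intro y
    apply mem_range_of_fix (ζ ^ m) d hdpos hord
    obtain ⟨P, rfl⟩ := aeval_surj hθ y
    rw [hev, htw]
    congr 1
    have h4 : f^[m] x0 = x0 := by
      rw [← hrm']
      exact Function.iterate_minimalPeriod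
    rw [hf, tw_iter] at h4
    exact h4
  choose ψ hψ using hfix
  let Ψ : L →+* LaurentSeries k :=
    { toFun := ψ
      map_zero' := sbs_injective d hdpos (by rw [hψ, map_zero, map_zero])
      map_one' := sbs_injective d hdpos (by rw [hψ, map_one, map_one])
      map_add' := fun a b => sbs_injective d hdpos (by rw [hψ, map_add, map_add, hψ, hψ])
      map_mul' := fun a b => sbs_injective d hdpos (by rw [hψ, map_mul, map_mul, hψ, hψ]) }
  refine ⟨Ψ, ?_⟩
  intro a
  apply sbs_injective d hdpos
  change sbs d hdpos (ψ (algebraMap (LaurentSeries k) L a)) = _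
  rw [hψ, hφ, sbs_sbs]
  have key : ∀ (M' : ℕ) (hM' : 0 < M') (_ : M = M'), sbs M hM a = sbs M' hM' a := by
    intro M' hM' h
    subst h
    rfl
  exact key _ _ (by rw [hd, mul_comm])

theorem pf_PUI (hNPU : T_NPU.{u}) : T_PUI.{u} := by
  intro k L _ _ _ _ _ _
  obtain ⟨M, hM, φ, θ, hφ, hθ⟩ := exists_phi (k := k) (L := L) hNPU
  obtain ⟨hm, ψ, hψ⟩ := exists_psi M hM φ θ hφ hθ
  have hsurj := surj_of_finrank _ hm rfl ψ hψ
  let e : L ≃+* LaurentSeries k := RingEquiv.ofBijective ψ ⟨ψ.injective, hsurj⟩
  have he : ∀ y, e y = ψ y := fun y => rfl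
  refine ⟨e, ?_, ?_⟩
  · rw [he, hψ, sbs_single, HahnSeries.single_pow, one_pow, nsmul_one, mul_one]
  · intro b
    refine ⟨fun i => PowerSeries.mk fun j =>
      PowerSeries.coeff (Module.finrank (LaurentSeries k) L * j + i) b, ?_⟩
    rw [RingEquiv.symm_apply_eq, map_sum]
    rw [decomp _ hm (b : LaurentSeries k)]
    apply Finset.sum_congr rfl
    intro i hi
    rw [map_mul, map_pow, RingEquiv.apply_symm_apply, he, hψ,
      coe_prt _ hm i (Finset.mem_range.1 hi)]

end Pool.Agent.H70.IX
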