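import Pool.Agent.H15.IX.TC

/-!
# Laurent series: substitution and twist
-/

set_option autoImplicit false

open Finset Pool.Agent.H15.IX

namespace Pool.Agent.H70.IX

universe u

variable {k : Type u} [Field k]

/-- the substitution `t -> t ^ d` -/
noncomputable def sbs (d : ℕ) (hd : 0 < d) : LaurentSeries k →+* LaurentSeries k :=
  HahnSeries.embDomainRingHom (AddMonoidHom.mulLeft (d : ℤ))
    (fun a b h => by
      have h1 : (d : ℤ) * a = d * b := h
      exact mul_left_cancel₀ (by exact_mod_cast hd.ne') h1)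
    (fun a b => by
      change (d : ℤ) * a ≤ d * b ↔ a ≤ b
      exact mul_le_mul_iff_right₀ (by exact_mod_cast hd))

theorem sbs_coeff (d : ℕ) (hd : 0 < d) (x : LaurentSeries k) (n : ℤ) :
    (sbs d hd x).coeff (d * n) = x.coeff n :=
  HahnSeries.embDomain_coeff (f := ⟨⟨fun n : ℤ => (d : ℤ) * n, _⟩, _⟩) (a := n)

theorem sbs_coeff_zero (d : ℕ) (hd : 0 < d) (x : LaurentSeries k) (n : ℤ) (h : ¬ (d : ℤ) ∣ n) :
    (sbs d hd x).coeff n = 0 := by
  refine HahnSeries.embDomain_of_notMem_range (f := ⟨⟨fun n : ℤ => (d : ℤ) * n, _⟩, _⟩) ?_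
  rintro ⟨m, hm⟩
  exact h ⟨m, hm.symm⟩

theorem sbs_injective (d : ℕ) (hd : 0 < d) :
    Function.Injective (sbs d hd : LaurentSeries k →+* LaurentSeries k) :=
  (sbs d hd : LaurentSeries k →+* LaurentSeries k).injective

theorem sbs_single (d : ℕ) (hd : 0 < d) (n : ℤ) (a : k) :
    sbs d hd (HahnSeries.single n a) = HahnSeries.single (d * n) a :=
  HahnSeries.embDomain_single (f := ⟨⟨fun n : ℤ => (d : ℤ) * n, _⟩, _⟩) (g := n)

theorem sbs_sbs (d e : ℕ) (hd : 0 < d) (he : 0 < e) (x : LaurentSeries k) :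
    sbs d hd (sbs e he x) = sbs (d * e) (Nat.mul_pos hd he) x := by
  ext n
  by_cases h : (d : ℤ) ∣ n
  · obtain ⟨m, rfl⟩ := h
    rw [sbs_coeff]
    by_cases h2 : (e : ℤ) ∣ m
    · obtain ⟨l, rfl⟩ := h2
      rw [sbs_coeff, ← mul_assoc, ← Nat.cast_mul, sbs_coeff]
    · rw [sbs_coeff_zero e he x m h2, sbs_coeff_zero]
      intro h3
      apply h2
      rw [Nat.cast_mul] at h3
      exact (mul_dvd_mul_iff_left (by exact_mod_cast hd.ne')).1 h3
  · rw [sbs_coeff_zero d hd _ n h, sbs_coeff_zero]
    intro h3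
    apply h
    rw [Nat.cast_mul] at h3
    exact (dvd_mul_right _ _).trans h3

/-- every `m`-th coefficient -/
noncomputable def prt (m : ℕ) (hm : 0 < m) (i : ℤ) (x : LaurentSeries k) : LaurentSeries k :=
  HahnSeries.ofSuppBddBelow (fun j : ℤ => x.coeff (m * j + i)) (by
    by_cases hx : x = 0
    · refine ⟨0, ?_⟩
      intro j hj
      rw [Function.mem_support, hx] at hj
      exact absurd (HahnSeries.coeff_zero) hj
    · refine ⟨-(|x.order| + |i|), ?_⟩
      intro j hj
      rw [Function.mem_support] at hj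
      by_contra hcon
      apply hj
      apply HahnSeries.coeff_eq_zero_of_lt_order
      have h1 : j < -(|x.order| + |i|) := not_le.1 hcon
      have h2 : -|x.order| ≤ x.order := neg_abs_le _
      have h3 : i ≤ |i| := le_abs_self i
      have h4 : (1 : ℤ) ≤ m := by exact_mod_cast hm
      have h5 : 0 ≤ |x.order| := abs_nonneg _
      have h6 : 0 ≤ |i| := abs_nonneg _
      nlinarith)

theorem prt_coeff (m : ℕ) (hm : 0 < m) (i : ℤ) (x : LaurentSeries k) (j : ℤ) :
    (prt m hm i x).coeff j = x.coeff (m * j + i) := rfl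

theorem coeff_sum' {ι : Type*} (s : Finset ι) (f : ι → LaurentSeries k) (n : ℤ) :
    (∑ i ∈ s, f i).coeff n = ∑ i ∈ s, (f i).coeff n :=
  HahnSeries.coeff_sum n

/-- the coefficients of a combination of the powers of `t` -/
theorem coeff_comb (m : ℕ) (hm : 0 < m) (c : ℕ → LaurentSeries k) (n : ℤ) :
    (∑ i ∈ range m, HahnSeries.single (1 : ℤ) (1 : k) ^ i * sbs m hm (c i)).coeff n =
      (c (n % m).toNat).coeff (n / m) := by
  have hm' : (0 : ℤ) < m := by exact_mod_cast hm
  have h0 := Int.emod_nonneg n hm'.ne'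
  have h1 := Int.emod_lt_of_pos n hm'
  have hterm : ∀ i : ℕ, (HahnSeries.single (1 : ℤ) (1 : k) ^ i * sbs m hm (c i)).coeff n =
      (sbs m hm (c i)).coeff (n - i) := by
    intro i
    rw [HahnSeries.single_pow, HahnSeries.coeff_single_mul, one_pow, one_mul, nsmul_one]
  rw [coeff_sum', Finset.sum_eq_single (n % m).toNat]
  · rw [hterm, Int.toNat_of_nonneg h0]
    have h2 : n - n % m = m * (n / m) := by
      have := Int.mul_ediv_add_emod n m
      linarith
    rw [h2, sbs_coeff]
  · intro i hi hne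
    rw [hterm]
    apply sbs_coeff_zero
    intro hdvd
    apply hne
    have hi' : i < m := Finset.mem_range.1 hi
    have h3 : n % m = i := by
      have h4 : (n - i) % m = 0 := Int.emod_eq_zero_of_dvd hdvd
      have h5 : n % m = (i : ℤ) % m := Int.emod_emod_of_dvd n (dvd_refl (m : ℤ)) ▸
        (Int.emod_emod_of_dvd _ (dvd_refl _)).symm ▸ Int.emod_eq_emod_iff_emod_sub_eq_zero.2 h4
      rw [h5]
      exact Int.emod_eq_of_lt (Int.natCast_nonneg _) (by exact_mod_cast hi')
    rw [h3]
    rfl
  · intro h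
    exfalso
    apply h
    rw [Finset.mem_range]
    omega

/-- the decomposition -/
theorem decomp (m : ℕ) (hm : 0 < m) (x : LaurentSeries k) :
    x = ∑ i ∈ range m, HahnSeries.single (1 : ℤ) (1 : k) ^ i * sbs m hm (prt m hm i x) := by
  ext n
  have hm' : (0 : ℤ) < m := by exact_mod_cast hm
  have h0 := Int.emod_nonneg n hm'.ne'
  rw [coeff_comb m hm (fun i => prt m hm i x) n, prt_coeff, Int.toNat_of_nonneg h0,
    Int.mul_ediv_add_emod]

/-- the twist, as a function -/
noncomputable def twf (ζ : kˣ) (x : LaurentSeries k) : LaurentSeries k :=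
  ⟨fun n => ((ζ ^ n : kˣ) : k) * x.coeff n, x.isPWO_support.mono fun n hn h0 =>
    hn (by
      have h1 : x.coeff n = 0 := h0
      change ((ζ ^ n : kˣ) : k) * x.coeff n = 0
      rw [h1, mul_zero])⟩

theorem twf_coeff (ζ : kˣ) (x : LaurentSeries k) (n : ℤ) :
    (twf ζ x).coeff n = ((ζ ^ n : kˣ) : k) * x.coeff n := rfl

theorem twf_mem (ζ : kˣ) (x : LaurentSeries k) (n : ℤ) :
    n ∈ (twf ζ x).support ↔ n ∈ x.support := by
  rw [HahnSeries.mem_support, HahnSeries.mem_support, twf_coeff, Ne, Ne, mul_eq_zero]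
  constructor
  · intro h h0
    exact h (Or.inr h0)
  · rintro h (h0 | h0)
    · exact (Units.ne_zero _) h0
    · exact h h0

/-- the twist -/
noncomputable def tw (ζ : kˣ) : LaurentSeries k →+* LaurentSeries k where
  toFun := twf ζ
  map_zero' := by
    ext n
    rw [twf_coeff, HahnSeries.coeff_zero, mul_zero]
  map_one' := by
    ext n
    rw [twf_coeff, HahnSeries.coeff_one]
    split_ifs with h
    · rw [h, zpow_zero, Units.val_one, one_mul]
    · rw [mul_zero]
  map_add' x y := by
    ext n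
    rw [twf_coeff, HahnSeries.coeff_add, HahnSeries.coeff_add, twf_coeff, twf_coeff, mul_add]
  map_mul' x y := by
    ext n
    rw [twf_coeff, HahnSeries.coeff_mul, HahnSeries.coeff_mul, Finset.mul_sum]
    apply Finset.sum_congr
    · ext ij
      rw [Finset.mem_antidiagonal, Finset.mem_antidiagonal, twf_mem, twf_mem]
    · intro ij hij
      have h1 : ij.1 + ij.2 = n := (Finset.mem_antidiagonal.1 hij).2.2
      rw [twf_coeff, twf_coeff, ← h1, zpow_add, Units.val_mul]
      ring

theorem tw_coeff (ζ : kˣ) (x : LaurentSeries k) (n : ℤ) :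
    (tw ζ x).coeff n = ((ζ ^ n : kˣ) : k) * x.coeff n := rfl

theorem tw_iter (ζ : kˣ) (x : LaurentSeries k) (j : ℕ) : (tw ζ)^[j] x = tw (ζ ^ j) x := by
  induction j with
  | zero =>
    ext n
    rw [Function.iterate_zero_apply, tw_coeff, pow_zero, one_zpow, Units.val_one, one_mul]
  | succ j ih =>
    rw [Function.iterate_succ_apply', ih]
    ext n
    rw [tw_coeff, tw_coeff, tw_coeff, ← mul_assoc, ← Units.val_mul]
    congr 2
    rw [pow_succ, mul_zpow, mul_comm]

/-- the fixed elements of a twist -/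
theorem mem_range_of_fix (ω : kˣ) (N : ℕ) (hN : 0 < N) (ho : orderOf ω = N) (c : LaurentSeries k)
    (h : tw ω c = c) : ∃ y, sbs N hN y = c := by
  refine ⟨prt N hN 0 c, ?_⟩
  ext n
  by_cases hn : (N : ℤ) ∣ n
  · obtain ⟨m, rfl⟩ := hn
    rw [sbs_coeff, prt_coeff, add_zero]
  · rw [sbs_coeff_zero N hN _ n hn]
    have h1 := congrArg (fun x : LaurentSeries k => x.coeff n) h
    simp only [tw_coeff] at h1
    by_contra h2
    have h3 : ((ω ^ n : kˣ) : k) = 1 := by
      have h4 : (((ω ^ n : kˣ) : k) - 1) * c.coeff n = 0 := by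
        rw [sub_mul, h1, one_mul, sub_self]
      rcases mul_eq_zero.1 h4 with h5 | h5
      · exact sub_eq_zero.1 h5
      · exact absurd h5.symm h2
    apply hn
    rw [← ho, orderOf_dvd_iff_zpow_eq_one]
    exact Units.ext h3

theorem tw_sbs (ω : kˣ) (N : ℕ) (hN : 0 < N) (ho : ω ^ N = 1) (y : LaurentSeries k) :
    tw ω (sbs N hN y) = sbs N hN y := by
  ext n
  rw [tw_coeff]
  by_cases hn : (N : ℤ) ∣ n
  · obtain ⟨m, rfl⟩ := hn
    rw [zpow_mul, zpow_natCast, ho, one_zpow, Units.val_one, one_mul]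
  · rw [sbs_coeff_zero N hN _ n hn, mul_zero]

theorem coe_neg_coeff (a : PowerSeries k) (n : ℤ) (hn : n < 0) :
    (a : LaurentSeries k).coeff n = 0 := by
  rw [PowerSeries.coeff_coe, if_pos hn]

theorem sbs_neg_coeff (M : ℕ) (hM : 0 < M) (a : PowerSeries k) (n : ℤ) (hn : n < 0) :
    (sbs M hM (a : LaurentSeries k)).coeff n = 0 := by
  by_cases h : (M : ℤ) ∣ n
  · obtain ⟨m, rfl⟩ := h
    rw [sbs_coeff]
    apply coe_neg_coeff
    have h1 : (0 : ℤ) < M := by exact_mod_cast hM
    by_contra hcon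
    have h2 := mul_nonneg h1.le (not_lt.1 hcon)
    linarith
  · exact sbs_coeff_zero M hM _ n h

/-- a ring homomorphism of power series which raises `X` to the power `M` -/
theorem coe_eq_sbs (M : ℕ) (hM : 0 < M) (f : PowerSeries k →+* PowerSeries k)
    (hX : f PowerSeries.X = PowerSeries.X ^ M) (hC : ∀ a, f (PowerSeries.C a) = PowerSeries.C a)
    (a : PowerSeries k) : ((f a : PowerSeries k) : LaurentSeries k) =
      sbs M hM (a : LaurentSeries k) := by
  have hpoly : ∀ p : Polynomial k, ((f (p : PowerSeries k) : PowerSeries k) : LaurentSeries k) =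
      sbs M hM ((p : PowerSeries k) : LaurentSeries k) := by
    intro p
    have h1 : (HahnSeries.ofPowerSeries ℤ k).comp (f.comp Polynomial.coeToPowerSeries.ringHom) =
        (sbs M hM).comp ((HahnSeries.ofPowerSeries ℤ k).comp
          Polynomial.coeToPowerSeries.ringHom) := by
      apply Polynomial.ringHom_ext
      · intro c
        simp only [RingHom.comp_apply, Polynomial.coeToPowerSeries.ringHom_apply,
          Polynomial.coe_C, hC]
        rw [HahnSeries.ofPowerSeries_C]
        change _ = sbs M hM (HahnSeries.single 0 c)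
        rw [sbs_single, mul_zero]
        rfl
      · simp only [RingHom.comp_apply, Polynomial.coeToPowerSeries.ringHom_apply,
          Polynomial.coe_X, hX]
        rw [HahnSeries.ofPowerSeries_X, sbs_single, map_pow, HahnSeries.ofPowerSeries_X,
          HahnSeries.single_pow, one_pow, nsmul_one, mul_one]
    exact congrArg (fun g : Polynomial k →+* LaurentSeries k => g p) h1
  ext j
  have hM' : (1 : ℤ) ≤ M := by exact_mod_cast hM
  obtain ⟨n, hn⟩ : ∃ n : ℕ, j < (M : ℤ) * n := by
    refine ⟨j.toNat + 1, ?_⟩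
    have h1 : j ≤ j.toNat := Int.self_le_toNat j
    push_cast
    nlinarith [Int.natCast_nonneg j.toNat]
  have hdec := PowerSeries.eq_X_pow_mul_shift_add_trunc n a
  set b : PowerSeries k := PowerSeries.mk fun i => PowerSeries.coeff (i + n) a with hb
  have h1 : ((f a : PowerSeries k) : LaurentSeries k) =
      HahnSeries.single ((M : ℤ) * n) (1 : k) * ((f b : PowerSeries k) : LaurentSeries k) +
        sbs M hM (((a.trunc n : Polynomial k) : PowerSeries k) : LaurentSeries k) := by
    rw [← hpoly]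
    conv_lhs => rw [hdec]
    rw [map_add, map_mul, map_pow, hX, ← pow_mul, PowerSeries.coe_add, PowerSeries.coe_mul,
      PowerSeries.coe_pow, HahnSeries.ofPowerSeries_X, HahnSeries.single_pow, one_pow]
    congr 3
    rw [nsmul_one]
    push_cast
    rfl
  have h2 : sbs M hM (a : LaurentSeries k) =
      HahnSeries.single ((M : ℤ) * n) (1 : k) * sbs M hM (b : LaurentSeries k) +
        sbs M hM (((a.trunc n : Polynomial k) : PowerSeries k) : LaurentSeries k) := by
    conv_lhs => rw [hdec]
    rw [PowerSeries.coe_add, PowerSeries.coe_mul, PowerSeries.coe_pow,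
      HahnSeries.ofPowerSeries_X, HahnSeries.single_pow, one_pow, map_add, map_mul, sbs_single]
    congr 3
    rw [nsmul_one]
  rw [h1, h2, HahnSeries.coeff_add, HahnSeries.coeff_add, HahnSeries.coeff_single_mul,
    HahnSeries.coeff_single_mul, coe_neg_coeff (f b) (j - M * n) (by linarith),
    sbs_neg_coeff M hM b (j - M * n) (by linarith)]

end Pool.Agent.H70.IX
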